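import Pool.Agent.Work.MP_64ea0f_cs.InterfaceG3

/-! # Block MVE: moves lift to the reduced core -/

set_option autoImplicit false

namespace Pool.CS

namespace MVE

variable {D : Rd}

theorem bform_add_left {S : Type} [Fintype S] (k : S → S → ℝ) (v v' w : S → ℝ) :
    bform k (v + v') w = bform k v w + bform k v' w := by
  unfold bform
  rw [← Finset.sum_add_distrib]
  refine Finset.sum_congr rfl fun s _ => ?_
  rw [← Finset.sum_add_distrib]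
  refine Finset.sum_congr rfl fun t _ => ?_
  rw [Pi.add_apply]
  ring

theorem bform_smul_left {S : Type} [Fintype S] (k : S → S → ℝ) (a : ℝ) (v w : S → ℝ) :
    bform k (a • v) w = a * bform k v w := by
  unfold bform
  rw [Finset.mul_sum]
  refine Finset.sum_congr rfl fun s _ => ?_
  rw [Finset.mul_sum]
  refine Finset.sum_congr rfl fun t _ => ?_
  rw [Pi.smul_apply, smul_eq_mul]
  ring

theorem B_shift (φ δ0 δ : D.V) (a : ℝ) (h1 : D.B φ δ = 0) (h2 : D.B δ0 δ = 0) :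
    D.B (φ + a • δ0) δ = 0 := by
  unfold Rd.B at *
  rw [bform_add_left, bform_smul_left, h1, h2]
  ring

theorem lab_self (H : Subgroup D.W) (φ : D.V) : φ ∈ D.lab H φ := by
  refine ⟨1, H.one_mem, Or.inl ?_⟩
  rw [map_one]
  rfl

theorem lab_trans (H : Subgroup D.W) {φ ψ χ : D.V} (h1 : ψ ∈ D.lab H φ) (h2 : χ ∈ D.lab H ψ) :
    χ ∈ D.lab H φ := by
  obtain ⟨g, hg, hg'⟩ := h1
  obtain ⟨h, hh, hh'⟩ := h2
  have e1 : ∀ v, D.ρ (h * g) v = D.ρ h (D.ρ g v) := by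
    intro v
    rw [map_mul]
    rfl
  refine ⟨h * g, H.mul_mem hh hg, ?_⟩
  rw [e1]
  rcases hg' with rfl | rfl <;> rcases hh' with rfl | rfl
  · exact Or.inl rfl
  · exact Or.inr rfl
  · right; rw [map_neg]
  · left; rw [map_neg, neg_neg]

/-- the relation between the coordinates of a set and of its multiple shift -/
def OI (D : Rd) (Δ : Finset D.V) (ν : D.V → D.V → ℤ) (x y : Set D.V) : Prop :=
  (∀ φ ∈ D.Rt, (∀ δ ∈ Δ, φ ∉ D.Fd δ) → (φ ∈ x ↔ φ ∈ y)) ∧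
  (∀ δ ∈ Δ, ∀ φ ∈ D.Fd δ, φ ∈ y ↔ φ - ((ν δ φ : ℝ) * D.cst δ φ) • δ ∈ x)

theorem mem_shs_in (δ : D.V) (ν : D.V → ℤ) (x : Set D.V) {φ : D.V} (h : φ ∈ D.Fd δ) :
    φ ∈ D.shs δ ν x ↔ φ - ((ν φ : ℝ) * D.cst δ φ) • δ ∈ x := by
  constructor
  · rintro (⟨_, h2⟩ | ⟨_, h2⟩)
    · exact absurd h h2
    · exact h2
  · intro h2
    exact Or.inr ⟨h, h2⟩

theorem mem_shs_out (δ : D.V) (ν : D.V → ℤ) (x : Set D.V) {φ : D.V} (h : φ ∉ D.Fd δ) :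
    φ ∈ D.shs δ ν x ↔ φ ∈ x := by
  constructor
  · rintro (⟨h2, _⟩ | ⟨h2, _⟩)
    · exact h2
    · exact absurd h2 h
  · intro h2
    exact Or.inl ⟨h2, h⟩

/-- integral shifts stay in `Fd` -/
theorem sub_mem (hTHR : Stmt_THR) {δ φ : D.V} (hδ : D.Af δ) (hφ : φ ∈ D.Fd δ) (i : ℤ) :
    φ - ((i : ℝ) * D.cst δ φ) • δ ∈ D.Fd δ := by
  obtain ⟨_, h2, h3, _⟩ := hTHR D δ hδ φ hφ
  have e : φ - ((i : ℝ) * D.cst δ φ) • δ = φ + (((-i : ℤ) : ℝ) * D.cst δ φ) • δ := by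
    push_cast
    rw [neg_mul, neg_smul, sub_eq_add_neg]
  rw [e]
  exact (h3 _ ((h2 _).mpr ⟨-i, rfl⟩)).2

theorem add_mem' (hTHR : Stmt_THR) {δ φ : D.V} (hδ : D.Af δ) (hφ : φ ∈ D.Fd δ) (i : ℤ) :
    φ + ((i : ℝ) * D.cst δ φ) • δ ∈ D.Fd δ := by
  obtain ⟨_, h2, h3, _⟩ := hTHR D δ hδ φ hφ
  exact (h3 _ ((h2 _).mpr ⟨i, rfl⟩)).2

theorem OI_insert (hTHR : Stmt_THR) (hORD : Stmt_ORD) [DecidableEq D.V] (δ0 : D.V)
    (Δ : Finset D.V) (h0 : δ0 ∉ Δ)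
    (ν : D.V → D.V → ℤ) (hAf : ∀ δ ∈ insert δ0 Δ, D.Af δ)
    (hort : ∀ δ ∈ insert δ0 Δ, ∀ δ' ∈ insert δ0 Δ, δ ≠ δ' → D.B δ δ' = 0) (x y : Set D.V) :
    OI D (insert δ0 Δ) ν x y ↔ OI D Δ ν (D.shs δ0 (ν δ0) x) y := by
  have hAf0 : D.Af δ0 := hAf δ0 (Finset.mem_insert_self _ _)
  have hne : ∀ δ ∈ Δ, δ ≠ δ0 := fun δ h h' => h0 (h' ▸ h)
  have hAf1 : ∀ δ ∈ Δ, D.Af δ := fun δ h => hAf δ (Finset.mem_insert_of_mem h)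
  -- disjointness
  have d1 : ∀ δ ∈ Δ, ∀ φ ∈ D.Fd δ, φ ∉ D.Fd δ0 := fun δ h φ hφ =>
    ((hORD D δ δ0 (hAf1 δ h) hAf0).2 (hort δ (Finset.mem_insert_of_mem h) δ0
      (Finset.mem_insert_self _ _) (hne δ h)) (hne δ h) φ hφ).1
  have d2 : ∀ δ ∈ Δ, ∀ φ ∈ D.Fd δ0, φ ∉ D.Fd δ := fun δ h φ hφ =>
    ((hORD D δ0 δ hAf0 (hAf1 δ h)).2 (hort δ0 (Finset.mem_insert_self _ _) δ
      (Finset.mem_insert_of_mem h) (hne δ h).symm) (hne δ h).symm φ hφ).1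
  constructor
  · rintro ⟨h1, h2⟩
    refine ⟨fun φ hφ hn => ?_, fun δ hδ φ hφ => ?_⟩
    · by_cases hc : φ ∈ D.Fd δ0
      · rw [mem_shs_in δ0 _ x hc]
        exact (h2 δ0 (Finset.mem_insert_self _ _) φ hc).symm
      · rw [mem_shs_out δ0 _ x hc]
        refine h1 φ hφ fun δ hδ => ?_
        rcases Finset.mem_insert.mp hδ with rfl | h'
        · exact hc
        · exact hn δ h'
    · rw [h2 δ (Finset.mem_insert_of_mem hδ) φ hφ,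
        mem_shs_out δ0 _ x (d1 δ hδ _ (sub_mem hTHR (hAf1 δ hδ) hφ _))]
  · rintro ⟨h1, h2⟩
    refine ⟨fun φ hφ hn => ?_, fun δ hδ φ hφ => ?_⟩
    · rw [← h1 φ hφ fun δ hδ => hn δ (Finset.mem_insert_of_mem hδ),
        mem_shs_out δ0 _ x (hn δ0 (Finset.mem_insert_self _ _))]
    · rcases Finset.mem_insert.mp hδ with rfl | h'
      · rw [← h1 φ hφ.1 fun δ' hδ' => d2 δ' hδ' φ hφ, mem_shs_in δ _ x hφ]
      · rw [h2 δ h' φ hφ,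
          mem_shs_out δ0 _ x (d1 δ h' _ (sub_mem hTHR (hAf1 δ h') hφ _))]

/-- the move is transported along a multiple shift -/
theorem transport (hTHR : Stmt_THR) (hORD : Stmt_ORD) (hSHX : Stmt_SHX) (K : Set D.S)
    (hK : Finite (D.par K)) (N : ℕ) (H : Subgroup D.W)
    (hlab : ∀ δ, D.Af δ → ∀ φ ∈ D.Fd δ, ∀ i : ℤ,
      φ + ((N * i : ℝ) * D.cst δ φ) • δ ∈ D.lab H φ)
    (ν : D.V → D.V → ℤ) :
    ∀ (Δ : Finset D.V), (∀ δ ∈ Δ, D.Af δ ∧ D.Cmp K δ) →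
      (∀ δ ∈ Δ, ∀ δ' ∈ Δ, δ ≠ δ' → D.B δ δ' = 0) →
      (∀ δ ∈ Δ, D.Shd K N δ (ν δ)) →
      ∀ (x z : Set D.V) (φ : D.V), D.YJ K x → z ⊆ D.Rt → (∀ δ ∈ Δ, D.Big x δ) →
      OI D Δ ν x z → D.Mn x φ → D.YJ K (D.fl x φ) → (∀ δ ∈ Δ, φ ∈ D.Fd δ ∨ φ ∈ D.Fp δ) →
      ∃ φ', D.Mn z φ' ∧ D.YJ K (D.fl z φ') ∧ φ' ∈ D.lab H φ ∧ OI D Δ ν (D.fl x φ) (D.fl z φ') ∧
        (∀ δ, D.B φ δ = 0 → (∀ δ' ∈ Δ, D.B δ' δ = 0) → D.B φ' δ = 0) := by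
  classical
  intro Δ
  induction Δ using Finset.induction_on with
  | empty =>
    intro _ _ _ x z φ hx hz _ hOI hφ hfl _
    have hxz : x = z := by
      ext ψ
      constructor
      · intro h
        exact (hOI.1 ψ (hx.1.sub h) (by simp)).mp h
      · intro h
        exact (hOI.1 ψ (hz h) (by simp)).mpr h
    subst hxz
    refine ⟨φ, hφ, hfl, lab_self H φ, ⟨fun _ _ _ => Iff.rfl, fun δ hδ => by simp at hδ⟩,
      fun δ h _ => h⟩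
  | insert δ0 Δ h0 ih =>
    intro hAf hort hShd x z φ hx hz hBig hOI hφ hfl hFF
    have hm0 : δ0 ∈ insert δ0 Δ := Finset.mem_insert_self _ _
    have hm : ∀ δ ∈ Δ, δ ∈ insert δ0 Δ := fun δ h => Finset.mem_insert_of_mem h
    have hne : ∀ δ ∈ Δ, δ0 ≠ δ := fun δ h h' => h0 (h' ▸ h)
    have hIv : D.Iv K δ0 (ν δ0) := ⟨(hShd δ0 hm0).dir, (hShd δ0 hm0).odd, (hShd δ0 hm0).zro⟩
    obtain ⟨s1, s2, s3, s4, s5⟩ := hSHX D K hK δ0 (hAf δ0 hm0).1 (hAf δ0 hm0).2 x hx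
      (hBig δ0 hm0) (ν δ0) hIv
    have hOI' := (OI_insert hTHR hORD δ0 Δ h0 ν (fun δ h => (hAf δ h).1) hort x z).mp hOI
    have hBig' : ∀ δ ∈ Δ, D.Big (D.shs δ0 (ν δ0) x) δ := fun δ h =>
      s3 δ (hAf δ (hm δ h)).1 (hort δ0 hm0 δ (hm δ h) (hne δ h)) (hBig δ (hm δ h))
    -- the transported root
    have key : ∃ φ1, D.Mn (D.shs δ0 (ν δ0) x) φ1 ∧ D.YJ K (D.fl (D.shs δ0 (ν δ0) x) φ1) ∧
        D.shs δ0 (ν δ0) (D.fl x φ) = D.fl (D.shs δ0 (ν δ0) x) φ1 ∧ φ1 ∈ D.lab H φ ∧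
        (∀ δ ∈ Δ, φ1 ∈ D.Fd δ ∨ φ1 ∈ D.Fp δ) ∧
        (∀ δ, D.B φ δ = 0 → (∀ δ' ∈ insert δ0 Δ, D.B δ' δ = 0) → D.B φ1 δ = 0) := by
      by_cases hc : φ ∈ D.Fd δ0
      · obtain ⟨t1, t2⟩ := s5 φ hφ hc
        obtain ⟨t3, t4⟩ := t2 hfl
        refine ⟨_, t1, t3, t4, ?_, ?_, ?_⟩
        · obtain ⟨i, hi⟩ := (hShd δ0 hm0).dvd φ hc
          have := hlab δ0 (hAf δ0 hm0).1 φ hc i
          rw [hi]
          push_cast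
          exact this
        · intro δ hδ
          right
          have hF : φ + ((ν δ0 φ : ℝ) * D.cst δ0 φ) • δ0 ∈ D.Fd δ0 :=
            add_mem' hTHR (hAf δ0 hm0).1 hc _
          obtain ⟨u1, u2, _⟩ := (hORD D δ0 δ (hAf δ0 hm0).1 (hAf δ (hm δ hδ)).1).2
            (hort δ0 hm0 δ (hm δ hδ) (hne δ hδ)) (hne δ hδ) _ hF
          exact ⟨hF.1, u2, u1⟩
        · intro δ h1 h2
          exact B_shift φ δ0 δ _ h1 (h2 δ0 hm0)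
      · have hp : φ ∈ D.Fp δ0 := (hFF δ0 hm0).resolve_left hc
        obtain ⟨t1, t2⟩ := s4 φ hφ hp
        obtain ⟨t3, t4⟩ := t2 hfl
        exact ⟨φ, t1, t3, t4, lab_self H φ, fun δ hδ => hFF δ (hm δ hδ), fun δ h1 _ => h1⟩
    obtain ⟨φ1, k1, k2, k3, k4, k5, k6⟩ := key
    obtain ⟨φ', r1, r2, r3, r4, r5⟩ := ih (fun δ h => hAf δ (hm δ h))
      (fun δ h δ' h' => hort δ (hm δ h) δ' (hm δ' h')) (fun δ h => hShd δ (hm δ h))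
      (D.shs δ0 (ν δ0) x) z φ1 s1 hz hBig' hOI' k1 k2 k5
    refine ⟨φ', r1, r2, lab_trans H k4 r3, ?_, ?_⟩
    · rw [OI_insert hTHR hORD δ0 Δ h0 ν (fun δ h => (hAf δ h).1) hort, k3]
      exact r4
    · intro δ h1 h2
      exact r5 δ (k6 δ h1 h2) (fun δ' hδ' => h2 δ' (hm δ' hδ'))

theorem big_fl {x : Set D.V} {φ δ : D.V} (h : D.Big x δ) (h0 : D.B φ δ = 0) :
    D.Big (D.fl x φ) δ := by
  intro μ hμ hlt
  have h1 := h μ hμ hlt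
  refine Or.inr ⟨h1, fun h2 => ?_⟩
  rw [Set.mem_singleton_iff] at h2
  rw [h2, h0] at hlt
  exact lt_irrefl _ hlt

end MVE

open MVE in
/-- moves lift to the reduced core -/
theorem blk_MVE : Stmt_RD2 → Stmt_SHX → Stmt_MSA → Stmt_ORD → Stmt_THR → Stmt_ORT → Stmt_MVE := by
  intro hRD2 hSHX hMSA hORD hTHR hORT D K hK C N hC H hlab z x hz hMR φ hφ hfl
  obtain ⟨a1, _, a3, _⟩ := hMSA D K hK N
  obtain ⟨r1, _⟩ := hRD2 D K hK C N hC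
  obtain ⟨_, _, o3, _⟩ := hC
  obtain ⟨Δ0, ν, hM0⟩ := hMR
  obtain ⟨Δ, _, hM, hnt⟩ := a3 Δ0 ν z x hM0
  have hFar : ∀ δ ∈ Δ, D.Far K C x δ := fun δ hδ => r1 z hz x Δ ν hM δ hδ (hnt δ hδ)
  have hFF : ∀ δ ∈ Δ, φ ∈ D.Fd δ ∨ φ ∈ D.Fp δ := fun δ hδ =>
    (o3 x hM.vy δ (hFar δ hδ)).2.2 φ hφ
  have hM' := a1 Δ ν z x hM
  obtain ⟨φ', h1, h2, h3, h4, h5⟩ := transport hTHR hORD hSHX K hK N H hlab
    (fun δ φ => -ν δ φ) Δ (fun δ h => ⟨(hM'.af δ h).1, (hM'.af δ h).2.1⟩) hM'.ort hM'.shd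
    x z φ hM'.vx hM'.vy.1.sub (fun δ h => (hM'.af δ h).2.2.1) ⟨hM'.out, hM'.inn⟩ hφ hfl hFF
  -- isotropy and orthogonality
  have hB0 : ∀ δ ∈ Δ, D.B φ δ = 0 := by
    intro δ hδ
    rcases hFF δ hδ with h | h
    · exact ((hORT D).1 δ (hM'.af δ hδ).1).1 φ h
    · exact h.2.1
  have hBB : ∀ δ ∈ Δ, ∀ δ' ∈ Δ, D.B δ' δ = 0 := by
    intro δ hδ δ' hδ'
    by_cases he : δ' = δ
    · rw [he]
      exact ((hORT D).1 δ (hM'.af δ hδ).1).2.2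
    · exact hM'.ort δ' hδ' δ hδ he
  have hM2 : D.MSh K N Δ (fun δ φ => -ν δ φ) (D.fl x φ) (D.fl z φ') :=
    { vx := hfl
      vy := h2
      af := fun δ hδ => ⟨(hM'.af δ hδ).1, (hM'.af δ hδ).2.1,
        big_fl (hM'.af δ hδ).2.2.1 (hB0 δ hδ),
        big_fl (hM'.af δ hδ).2.2.2 (h5 δ (hB0 δ hδ) (hBB δ hδ))⟩
      ort := hM'.ort
      shd := hM'.shd
      out := h4.1
      inn := h4.2 }
  exact ⟨φ', h1, h2, h3, Δ, _, a1 _ _ _ _ hM2⟩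

end Pool.CS
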